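import Pool.Agent.H92.S2.LUT2
import Pool.Agent.H51.SFU.NUT

/-!
# MP_70ba79_ag: the numerical bound of weight 3 with a linear condition (row NUT2, after H51/SFU/NUT)
-/

set_option autoImplicit false

namespace Pool.Agent.H49.SFV

open MvPolynomial
open Pool.Agent.H84.SM (dp cr dt)
open Pool.Agent.H3.SF Pool.Agent.H3.S2 Pool.Agent.H92.SF Pool.Agent.H92.S2
open Pool.Agent.H51.SFU (ss0 ssi sum3 sum2 sum12 sum1)

/-! ### The final inequality -/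

theorem fin_ineq (δ j0 q m n g0 N0 : ℝ) (hδ : 1 ≤ δ) (hj : 0 ≤ j0) (hq : 1 ≤ q)
    (hm : 100000 * q * (2 * δ * (2 * j0 + 1) + δ + 3) ≤ m)
    (hn : 30000000 * (q * (δ + 1)) ≤ n) (hg : m ≤ q * g0) (hN : n / 12 - 1 ≤ N0) :
    (2 * n * j0 + 1) * (δ * (m * (2 * (n + 3) ^ 3 / 27) + (2 * j0 * n + 1) * ((n + 3) ^ 2 / 6))) +
      (m - 3) * (δ * (m * (n + 3) ^ 4 / 162 + m * (n + 3) ^ 3 / 54 + (n + 3) ^ 4 / 216) -
        3 * g0 * N0 ^ 4) ≤
      δ * m ^ 2 * n ^ 4 / 162 - m ^ 2 * n ^ 4 / (8100 * q) := by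
  have hq0 : 0 < q := by linarith
  have hδ0 : 0 < δ := by linarith
  have hqδ : 1 ≤ q * (δ + 1) := by nlinarith
  have hn1 : 30000000 ≤ n := by nlinarith
  have hn0 : 0 < n := by linarith
  have hm1 : 100000 ≤ m := by
    have h1 : 1 ≤ 2 * δ * (2 * j0 + 1) + δ + 3 := by
      have : 0 ≤ 2 * δ * (2 * j0 + 1) := by positivity
      linarith
    nlinarith
  have hm0 : 0 < m := by linarith
  obtain ⟨η, hη⟩ : ∃ η : ℝ, η = 1 / (100000 * (q * (δ + 1))) := ⟨_, rfl⟩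
  have hη0 : 0 < η := by rw [hη]; positivity
  have hηm : η * (q * (δ + 1)) * 100000 = 1 := by
    rw [hη]
    field_simp
  have hη1 : η ≤ 1 := by nlinarith
  have hηn : 300 ≤ η * n := by
    have h1 : η * (30000000 * (q * (δ + 1))) ≤ η * n := mul_le_mul_of_nonneg_left hn hη0.le
    linarith
  have p3 : 0 < n ^ 3 := by positivity
  have p4 : 0 < n ^ 4 := by positivity
  -- powers of `n + 3`
  have a2 : (n + 3) ^ 2 ≤ 4 * n ^ 2 := by nlinarith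
  have a3 : (n + 3) ^ 3 ≤ 8 * n ^ 3 := by
    calc (n + 3) ^ 3 ≤ (2 * n) ^ 3 := pow_le_pow_left₀ (by linarith) (by linarith) 3
      _ = 8 * n ^ 3 := by ring
  have hη4 : 300 * n ^ 3 ≤ η * n ^ 4 := by
    have : 300 * n ^ 3 ≤ (η * n) * n ^ 3 := mul_le_mul_of_nonneg_right hηn p3.le
    linarith [show (η * n) * n ^ 3 = η * n ^ 4 by ring]
  have a4 : (n + 3) ^ 4 ≤ (1 + η) * n ^ 4 := by
    have h1 : (n + 3) ^ 4 = n ^ 4 + 12 * n ^ 3 + 54 * n ^ 2 + 108 * n + 81 := by ring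
    have h2 : n ^ 2 ≤ n ^ 3 := by nlinarith [pow_pos hn0 2]
    have h3 : n ≤ n ^ 3 := by nlinarith [pow_pos hn0 2]
    have h4 : 1 ≤ n ^ 3 := by linarith
    rw [h1]
    linarith
  have a5 : (1 - η) * n ^ 4 ≤ 20736 * N0 ^ 4 := by
    have h1 : (n / 12 - 1) ^ 4 ≤ N0 ^ 4 := pow_le_pow_left₀ (by linarith) hN 4
    have h2 : 20736 * (n / 12 - 1) ^ 4 = n ^ 4 - 48 * n ^ 3 + 864 * n ^ 2 - 6912 * n + 20736 := by
      ring
    have h3 : 6912 * n ≤ 864 * n ^ 2 := by nlinarith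
    linarith
  -- first part
  have b1 : (2 * n * j0 + 1) ≤ (2 * j0 + 1) * n := by nlinarith
  have b1' : (2 * j0 * n + 1) ≤ (2 * j0 + 1) * n := by nlinarith
  have hJ : 0 ≤ (2 * j0 + 1) := by linarith
  have hJm : 2 * j0 + 1 ≤ m := by
    have h1 : 2 * j0 + 1 ≤ 2 * δ * (2 * j0 + 1) + δ + 3 := by nlinarith
    have h2 : (0 : ℝ) ≤ 2 * δ * (2 * j0 + 1) + δ + 3 := by linarith
    have h3 : 1 * (2 * δ * (2 * j0 + 1) + δ + 3) ≤
        100000 * q * (2 * δ * (2 * j0 + 1) + δ + 3) :=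
      mul_le_mul_of_nonneg_right (by linarith) h2
    linarith
  have b2 : m * (2 * (n + 3) ^ 3 / 27) + (2 * j0 * n + 1) * ((n + 3) ^ 2 / 6) ≤
      (2 * m) * n ^ 3 := by
    have c1 : m * (2 * (n + 3) ^ 3 / 27) ≤ m * n ^ 3 := by
      refine mul_le_mul_of_nonneg_left ?_ hm0.le
      linarith
    have c2 : (2 * j0 * n + 1) * ((n + 3) ^ 2 / 6) ≤ ((2 * j0 + 1) * n) * (n ^ 2) := by
      refine mul_le_mul b1' (by linarith [sq_nonneg n]) (by positivity) (by positivity)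
    have c3 : ((2 * j0 + 1) * n) * (n ^ 2) ≤ m * n ^ 3 := by
      have : (2 * j0 + 1) * n ^ 3 ≤ m * n ^ 3 :=
        mul_le_mul_of_nonneg_right hJm (by positivity)
      linarith [show ((2 * j0 + 1) * n) * (n ^ 2) = (2 * j0 + 1) * n ^ 3 by ring]
    linarith [show (2 * m) * n ^ 3 = m * n ^ 3 + m * n ^ 3 by ring]
  have b3 : (2 * n * j0 + 1) * (δ * (m * (2 * (n + 3) ^ 3 / 27) +
      (2 * j0 * n + 1) * ((n + 3) ^ 2 / 6))) ≤ 2 * δ * (2 * j0 + 1) * m * n ^ 4 := by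
    have c1 : (2 * n * j0 + 1) * (δ * (m * (2 * (n + 3) ^ 3 / 27) +
        (2 * j0 * n + 1) * ((n + 3) ^ 2 / 6))) ≤
        ((2 * j0 + 1) * n) * (δ * ((2 * m) * n ^ 3)) :=
      mul_le_mul b1 (mul_le_mul_of_nonneg_left b2 hδ0.le) (by positivity) (by positivity)
    refine c1.trans (le_of_eq ?_)
    ring
  -- second part
  have b4 : m * (n + 3) ^ 4 / 162 + m * (n + 3) ^ 3 / 54 + (n + 3) ^ 4 / 216 ≤
      m * n ^ 4 / 162 + m * (η * n ^ 4) + n ^ 4 := by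
    have c1 : m * (n + 3) ^ 4 ≤ m * ((1 + η) * n ^ 4) := mul_le_mul_of_nonneg_left a4 hm0.le
    have c2 : m * (n + 3) ^ 3 ≤ m * (η * n ^ 4) :=
      mul_le_mul_of_nonneg_left (by linarith) hm0.le
    have c3 : (1 + η) * n ^ 4 ≤ 2 * n ^ 4 := mul_le_mul_of_nonneg_right (by linarith) p4.le
    have c4 : 0 ≤ m * (η * n ^ 4) := by positivity
    have c5 : m * ((1 + η) * n ^ 4) = m * n ^ 4 + m * (η * n ^ 4) := by ring
    linarith
  have b5 : (m - 3) * (δ * (m * (n + 3) ^ 4 / 162 + m * (n + 3) ^ 3 / 54 + (n + 3) ^ 4 / 216)) ≤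
      δ * m ^ 2 * n ^ 4 / 162 + δ * η * m ^ 2 * n ^ 4 + δ * m * n ^ 4 := by
    have c1 : (m - 3) * (δ * (m * (n + 3) ^ 4 / 162 + m * (n + 3) ^ 3 / 54 +
        (n + 3) ^ 4 / 216)) ≤ m * (δ * (m * n ^ 4 / 162 + m * (η * n ^ 4) + n ^ 4)) :=
      mul_le_mul (by linarith) (mul_le_mul_of_nonneg_left b4 hδ0.le) (by positivity) hm0.le
    refine c1.trans (le_of_eq ?_)
    ring
  -- third part
  have hg0 : m / q ≤ g0 := by
    rw [div_le_iff₀ hq0]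
    linarith
  have b6 : (m - 3) * ((m / q) * ((1 - η) * n ^ 4)) ≤ (m - 3) * (g0 * (20736 * N0 ^ 4)) := by
    refine mul_le_mul_of_nonneg_left ?_ (by linarith)
    refine mul_le_mul hg0 a5 (mul_nonneg (by linarith) p4.le) ?_
    exact (div_nonneg hm0.le hq0.le).trans hg0
  have b7 : (m ^ 2 - 3 * m - η * m ^ 2) * n ^ 4 / q ≤ (m - 3) * ((m / q) * ((1 - η) * n ^ 4)) := by
    have c1 : (m - 3) * ((m / q) * ((1 - η) * n ^ 4)) =
        (m ^ 2 - 3 * m - η * m ^ 2 + 3 * (η * m)) * n ^ 4 / q := by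
      field_simp
      ring
    rw [c1]
    refine div_le_div_of_nonneg_right ?_ hq0.le
    refine mul_le_mul_of_nonneg_right ?_ p4.le
    have : 0 ≤ η * m := by positivity
    linarith
  have b8 : -((m - 3) * (3 * g0 * N0 ^ 4)) ≤
      -(m ^ 2 * n ^ 4 / (6912 * q)) + (3 * m + η * m ^ 2) * n ^ 4 := by
    have c1 : (m - 3) * (g0 * (20736 * N0 ^ 4)) = 6912 * ((m - 3) * (3 * g0 * N0 ^ 4)) := by ring
    have c2 : (m ^ 2 - 3 * m - η * m ^ 2) * n ^ 4 / q =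
        m ^ 2 * n ^ 4 / q - (3 * m + η * m ^ 2) * n ^ 4 / q := by ring
    have c3 : (3 * m + η * m ^ 2) * n ^ 4 / q ≤ (3 * m + η * m ^ 2) * n ^ 4 :=
      div_le_self (by positivity) hq
    have c4 : m ^ 2 * n ^ 4 / (6912 * q) = m ^ 2 * n ^ 4 / q / 6912 := by
      rw [mul_comm, div_div, mul_comm q]
    have c5 : 0 ≤ (3 * m + η * m ^ 2) * n ^ 4 := by positivity
    rw [c4]
    linarith
  -- the end
  have hC : m * (2 * δ * (2 * j0 + 1) + δ + 3) ≤ m ^ 2 / q / 100000 := by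
    rw [div_div, le_div_iff₀ (by positivity)]
    have : (100000 * q * (2 * δ * (2 * j0 + 1) + δ + 3)) * m ≤ m * m :=
      mul_le_mul_of_nonneg_right hm hm0.le
    linarith [show m * (2 * δ * (2 * j0 + 1) + δ + 3) * (q * 100000) =
      (100000 * q * (2 * δ * (2 * j0 + 1) + δ + 3)) * m by ring, show m ^ 2 = m * m by ring]
  have hE : η * m ^ 2 * (δ + 1) = m ^ 2 / q / 100000 := by
    rw [hη]
    field_simp
  have hfin : m * (2 * δ * (2 * j0 + 1) + δ + 3) + η * m ^ 2 * (δ + 1) ≤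
      m ^ 2 / q * (1 / 6912 - 1 / 8100) := by
    have : 0 < m ^ 2 / q := by positivity
    rw [hE]
    have h1 : m ^ 2 / q / 100000 = m ^ 2 / q * (1 / 100000) := by ring
    rw [h1] at hC ⊢
    have h2 : m ^ 2 / q * (1 / 100000 + 1 / 100000) ≤ m ^ 2 / q * (1 / 6912 - 1 / 8100) :=
      mul_le_mul_of_nonneg_left (by norm_num) this.le
    rw [mul_add] at h2
    linarith only [hC, h2]
  have hfin2 := mul_le_mul_of_nonneg_right hfin p4.le
  have c6 : m ^ 2 / q * (1 / 6912 - 1 / 8100) * n ^ 4 =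
      m ^ 2 * n ^ 4 / (6912 * q) - m ^ 2 * n ^ 4 / (8100 * q) := by
    field_simp
  rw [c6] at hfin2
  have c7 : (m * (2 * δ * (2 * j0 + 1) + δ + 3) + η * m ^ 2 * (δ + 1)) * n ^ 4 =
      2 * δ * (2 * j0 + 1) * m * n ^ 4 + δ * m * n ^ 4 + δ * η * m ^ 2 * n ^ 4 +
        (3 * m + η * m ^ 2) * n ^ 4 := by ring
  rw [c7] at hfin2
  have c8 : (m - 3) * (δ * (m * (n + 3) ^ 4 / 162 + m * (n + 3) ^ 3 / 54 + (n + 3) ^ 4 / 216) -
        3 * g0 * N0 ^ 4) = (m - 3) * (δ * (m * (n + 3) ^ 4 / 162 + m * (n + 3) ^ 3 / 54 +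
        (n + 3) ^ 4 / 216)) + -((m - 3) * (3 * g0 * N0 ^ 4)) := by ring
  rw [c8]
  linarith only [b3, b5, b8, hfin2]

theorem pf_NUT2 (hNSA : T_NSA) : T_NUT2 := by
  intro δ q hδ hq
  refine ⟨100000 * q * (4 * δ + δ + 3), fun j0 m g hm' hmg => ?_⟩
  have hm : 100000 * q * (2 * δ * (2 * j0 + 1) + δ + 3) ≤ m := by
    refine le_trans ?_ hm'
    rw [mul_assoc (100000 * q)]
    refine Nat.mul_le_mul_left _ ?_
    nlinarith
  refine ⟨30000000 * (q * (δ + 1)), fun n hn => ?_⟩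
  obtain ⟨g0, hg0⟩ : ∃ g0, g0 = min g m := ⟨_, rfl⟩
  have hg0g : g0 ≤ g := hg0 ▸ min_le_left _ _
  have hg0m : g0 ≤ m := hg0 ▸ min_le_right _ _
  have hqg : m ≤ q * g0 := by
    rcases min_choice g m with h | h
    · rw [hg0, h]
      exact hmg
    · rw [hg0, h]
      exact Nat.le_mul_of_pos_left m hq
  obtain ⟨N0, hN0⟩ : ∃ N0, N0 = n / 12 := ⟨_, rfl⟩
  have hm3 : 3 ≤ m := by
    have : 1 ≤ q * (2 * δ * (2 * j0 + 1) + δ + 3) := Nat.mul_pos hq (by positivity)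
    have h2 : 100000 * 1 ≤ 100000 * (q * (2 * δ * (2 * j0 + 1) + δ + 3)) :=
      Nat.mul_le_mul_left _ this
    have h3 : 100000 * (q * (2 * δ * (2 * j0 + 1) + δ + 3)) =
      100000 * q * (2 * δ * (2 * j0 + 1) + δ + 3) := by ring
    omega
  -- the terms
  have ht : ∀ r ∈ Finset.range (n / 3),
      ((SS δ j0 m 3 1 g n (r + 1) (-(2 * n * j0 + 1 + ((m : ℤ) - 3) * r)) : ℤ) : ℝ) ≤
      δ * (m * (2 * ((n : ℝ) - 3 * r) ^ 3 / 27) + (m + 3 * r) * (((n : ℝ) - 3 * r) ^ 2 / 6)) -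
        ((r : ℝ) + 1) * g0 * (if r < N0 then 6 * (N0 : ℝ) ^ 2 else 0) := by
    intro r hr
    have hr3 : 3 * (r + 1) ≤ n := by
      have := Finset.mem_range.mp hr
      omega
    have h1 := ssi δ j0 m g g0 n r hδ hg0g hg0m hr3
    have h1' : ((SS δ j0 m 3 1 g n (r + 1) (-(2 * n * j0 + 1 + ((m : ℤ) - 3) * r)) : ℤ) : ℝ) ≤
      δ * (m * nA (n - 3 * (r + 1)) + (m + 3 * r) * nC (n - 3 * (r + 1))) -
        (r + 1) * g0 * ((if 6 * (r + 1) ≤ n then nC (n - 6 * (r + 1)) else 0 : ℕ) : ℝ) := by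
      exact_mod_cast h1
    refine h1'.trans ?_
    obtain ⟨n1, n2, _⟩ := hNSA (n - 3 * (r + 1))
    have e1 : (((n - 3 * (r + 1) : ℕ) : ℝ)) + 3 = (n : ℝ) - 3 * r := by
      rw [Nat.cast_sub hr3]
      push_cast
      ring
    have n1' : (27 : ℝ) * nA (n - 3 * (r + 1)) ≤ 2 * ((n : ℝ) - 3 * r) ^ 3 := by
      rw [← e1]
      exact_mod_cast n1
    have n2' : (6 : ℝ) * nC (n - 3 * (r + 1)) ≤ ((n : ℝ) - 3 * r) ^ 2 := by
      rw [← e1]
      exact_mod_cast n2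
    refine sub_le_sub ?_ ?_
    · refine mul_le_mul_of_nonneg_left ?_ (by positivity)
      refine add_le_add ?_ ?_
      · exact mul_le_mul_of_nonneg_left (by linarith) (by positivity)
      · exact mul_le_mul_of_nonneg_left (by linarith) (by positivity)
    · refine mul_le_mul_of_nonneg_left ?_ (by positivity)
      split_ifs with h2 h3 h3
      · obtain ⟨_, _, n3⟩ := hNSA (n - 6 * (r + 1))
        have h4 : 6 * N0 ≤ n - 6 * (r + 1) := by omega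
        have h5 : (6 * N0) ^ 2 ≤ 6 * nC (n - 6 * (r + 1)) := (Nat.pow_le_pow_left h4 2).trans n3
        have h6 : ((6 * N0 : ℕ) : ℝ) ^ 2 ≤ 6 * nC (n - 6 * (r + 1)) := by exact_mod_cast h5
        push_cast at h6
        linarith [show (6 * (N0 : ℝ)) ^ 2 = 36 * (N0 : ℝ) ^ 2 by ring]
      · exfalso
        omega
      · positivity
      · simp
  have h0 := ss0 δ j0 m g n
  obtain ⟨n1, n2, _⟩ := hNSA n
  have h0' : ((SS δ j0 m 3 1 g n 0 0 : ℤ) : ℝ) ≤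
      δ * (m * (2 * ((n : ℝ) + 3) ^ 3 / 27) + (2 * j0 * n + 1) * (((n : ℝ) + 3) ^ 2 / 6)) := by
    have h1 : ((SS δ j0 m 3 1 g n 0 0 : ℤ) : ℝ) ≤
        δ * (m * nA n + (2 * j0 * n + 1) * nC n) := by exact_mod_cast h0
    have n1' : (27 : ℝ) * nA n ≤ 2 * ((n : ℝ) + 3) ^ 3 := by exact_mod_cast n1
    have n2' : (6 : ℝ) * nC n ≤ ((n : ℝ) + 3) ^ 2 := by exact_mod_cast n2
    refine h1.trans (mul_le_mul_of_nonneg_left (add_le_add ?_ ?_) (by positivity))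
    · exact mul_le_mul_of_nonneg_left (by linarith) (by positivity)
    · exact mul_le_mul_of_nonneg_left (by linarith) (by positivity)
  -- the sum over `r`
  have hR : 3 * ((n / 3 : ℕ) : ℝ) ≤ n := by
    have : 3 * (n / 3) ≤ n := Nat.mul_div_le n 3
    exact_mod_cast this
  have hs : ∑ r ∈ Finset.range (n / 3),
      ((SS δ j0 m 3 1 g n (r + 1) (-(2 * n * j0 + 1 + ((m : ℤ) - 3) * r)) : ℤ) : ℝ) ≤
      δ * (m * ((n : ℝ) + 3) ^ 4 / 162 + m * ((n : ℝ) + 3) ^ 3 / 54 + ((n : ℝ) + 3) ^ 4 / 216) -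
        3 * g0 * (N0 : ℝ) ^ 4 := by
    refine (Finset.sum_le_sum ht).trans ?_
    rw [Finset.sum_sub_distrib]
    refine sub_le_sub ?_ ?_
    · rw [← Finset.mul_sum]
      refine mul_le_mul_of_nonneg_left ?_ (by positivity)
      have s3 := sum3 n (n / 3) hR
      have s2 := sum2 n (n / 3) hR
      have s12 := sum12 n (n / 3) hR
      have hz : 0 ≤ (n : ℝ) + 3 - 3 * ((n / 3 : ℕ) : ℝ) := by linarith
      have hz4 := pow_nonneg hz 4
      have hz3 := pow_nonneg hz 3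
      have hG : 0 ≤ 4 * ((n : ℝ) + 3) * ((n : ℝ) + 3 - 3 * ((n / 3 : ℕ) : ℝ)) ^ 3 -
          3 * ((n : ℝ) + 3 - 3 * ((n / 3 : ℕ) : ℝ)) ^ 4 := by
        have h1 : (n : ℝ) + 3 - 3 * ((n / 3 : ℕ) : ℝ) ≤ (n : ℝ) + 3 := by
          have : (0 : ℝ) ≤ ((n / 3 : ℕ) : ℝ) := Nat.cast_nonneg _
          linarith
        have h2 : ((n : ℝ) + 3 - 3 * ((n / 3 : ℕ) : ℝ)) *
            ((n : ℝ) + 3 - 3 * ((n / 3 : ℕ) : ℝ)) ^ 3 ≤
            ((n : ℝ) + 3) * ((n : ℝ) + 3 - 3 * ((n / 3 : ℕ) : ℝ)) ^ 3 :=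
          mul_le_mul_of_nonneg_right h1 hz3
        have h3 : 0 ≤ ((n : ℝ) + 3) * ((n : ℝ) + 3 - 3 * ((n / 3 : ℕ) : ℝ)) ^ 3 := by positivity
        have h4 : ((n : ℝ) + 3 - 3 * ((n / 3 : ℕ) : ℝ)) ^ 4 =
            ((n : ℝ) + 3 - 3 * ((n / 3 : ℕ) : ℝ)) * ((n : ℝ) + 3 - 3 * ((n / 3 : ℕ) : ℝ)) ^ 3 := by
          ring
        linarith
      have e1 : ∑ r ∈ Finset.range (n / 3), ((m : ℝ) * (2 * ((n : ℝ) - 3 * r) ^ 3 / 27) +
          (m + 3 * r) * (((n : ℝ) - 3 * r) ^ 2 / 6)) =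
          (m : ℝ) * (2 / 27) * ∑ r ∈ Finset.range (n / 3), ((n : ℝ) - 3 * r) ^ 3 +
          (m : ℝ) / 6 * ∑ r ∈ Finset.range (n / 3), ((n : ℝ) - 3 * r) ^ 2 +
          1 / 2 * ∑ r ∈ Finset.range (n / 3), (r : ℝ) * ((n : ℝ) - 3 * r) ^ 2 := by
        rw [Finset.mul_sum, Finset.mul_sum, Finset.mul_sum, ← Finset.sum_add_distrib,
          ← Finset.sum_add_distrib]
        refine Finset.sum_congr rfl (fun r _ => ?_)
        ring
      rw [e1]
      have hm0 : (0 : ℝ) ≤ m := Nat.cast_nonneg m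
      have t3 : (m : ℝ) * (2 / 27) * ∑ r ∈ Finset.range (n / 3), ((n : ℝ) - 3 * r) ^ 3 ≤
          (m : ℝ) * (2 / 27) * (((n : ℝ) + 3) ^ 4 / 12) :=
        mul_le_mul_of_nonneg_left (by linarith) (by positivity)
      have t2 : (m : ℝ) / 6 * ∑ r ∈ Finset.range (n / 3), ((n : ℝ) - 3 * r) ^ 2 ≤
          (m : ℝ) / 6 * (((n : ℝ) + 3) ^ 3 / 9) :=
        mul_le_mul_of_nonneg_left (by linarith) (by positivity)
      have t12 : 1 / 2 * ∑ r ∈ Finset.range (n / 3), (r : ℝ) * ((n : ℝ) - 3 * r) ^ 2 ≤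
          1 / 2 * (((n : ℝ) + 3) ^ 4 / 108) :=
        mul_le_mul_of_nonneg_left (by linarith) (by positivity)
      linarith
    · have h1 : ∑ r ∈ Finset.range N0, ((r : ℝ) + 1) * g0 * (6 * (N0 : ℝ) ^ 2) ≤
          ∑ r ∈ Finset.range (n / 3), ((r : ℝ) + 1) * g0 *
            (if r < N0 then 6 * (N0 : ℝ) ^ 2 else 0) := by
        have h2 : Finset.range N0 ⊆ Finset.range (n / 3) := by
          intro x hx
          rw [Finset.mem_range] at hx ⊢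
          omega
        refine le_trans (le_of_eq ?_) (Finset.sum_le_sum_of_subset_of_nonneg h2 (fun r _ _ => by
          split_ifs <;> positivity))
        refine Finset.sum_congr rfl (fun r hr => ?_)
        rw [if_pos (Finset.mem_range.mp hr)]
      refine le_trans ?_ h1
      have h3 : ∑ r ∈ Finset.range N0, ((r : ℝ) + 1) * g0 * (6 * (N0 : ℝ) ^ 2) =
          3 * g0 * (N0 : ℝ) ^ 2 * (2 * ∑ r ∈ Finset.range N0, ((r : ℝ) + 1)) := by
        rw [Finset.mul_sum, Finset.mul_sum]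
        refine Finset.sum_congr rfl (fun r _ => ?_)
        ring
      rw [h3]
      have h4 := mul_le_mul_of_nonneg_left (sum1 N0)
        (show (0 : ℝ) ≤ 3 * g0 * (N0 : ℝ) ^ 2 by positivity)
      refine le_trans (le_of_eq ?_) h4
      ring
  -- total
  have hU : ((UU δ j0 m 3 1 g n : ℤ) : ℝ) ≤
      (2 * n * j0 + 1) * (δ * (m * (2 * ((n : ℝ) + 3) ^ 3 / 27) +
        (2 * j0 * n + 1) * (((n : ℝ) + 3) ^ 2 / 6))) +
      (m - 3) * (δ * (m * ((n : ℝ) + 3) ^ 4 / 162 + m * ((n : ℝ) + 3) ^ 3 / 54 +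
        ((n : ℝ) + 3) ^ 4 / 216) - 3 * g0 * (N0 : ℝ) ^ 4) := by
    unfold UU
    push_cast
    rw [← Finset.mul_sum]
    have hm3' : (0 : ℝ) ≤ (m : ℝ) - 3 := by
      have : (3 : ℝ) ≤ m := by exact_mod_cast hm3
      linarith
    have h5 := mul_le_mul_of_nonneg_left h0' (show (0 : ℝ) ≤ 2 * n * j0 + 1 by positivity)
    have h6 := mul_le_mul_of_nonneg_left hs hm3'
    exact add_le_add h5 h6
  have hN0' : (n : ℝ) / 12 - 1 ≤ N0 := by
    have h1 : n < 12 * (N0 + 1) := by omega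
    have h2 : (n : ℝ) < 12 * (N0 + 1) := by exact_mod_cast h1
    linarith
  have hF := fin_ineq δ j0 q m n g0 N0 (by exact_mod_cast hδ) (Nat.cast_nonneg _)
    (by exact_mod_cast hq) (by exact_mod_cast hm) (by exact_mod_cast hn) (by exact_mod_cast hqg)
    hN0'
  have hT := hU.trans hF
  have hδ' : (1 : ℝ) ≤ δ := by exact_mod_cast hδ
  have hq' : (1 : ℝ) ≤ q := by exact_mod_cast hq
  have hT2 := mul_le_mul_of_nonneg_left hT (show (0 : ℝ) ≤ 162 * (100 * δ * q) by positivity)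
  have e9 : 162 * (100 * (δ : ℝ) * q) * (δ * m ^ 2 * n ^ 4 / 162 - m ^ 2 * n ^ 4 / (8100 * q)) =
      (100 * δ * q - 2) * (δ * m ^ 2 * n ^ 4) := by
    field_simp
    ring
  rw [e9] at hT2
  exact_mod_cast hT2

end Pool.Agent.H49.SFV
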