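import Pool.Agent.H92.S2.LUT2

/-!
# MP_70ba79_ag, THEOREM S: row REA2 (after H66/SFU/REA)
-/

set_option autoImplicit false

namespace Pool.Agent.H49.SFV

open MvPolynomial
open Pool.Agent.H84.SM (dp cr dt)
open Pool.Agent.H3.SF Pool.Agent.H3.S2 Pool.Agent.H92.SF Pool.Agent.H92.S2

/-- REA2: integrality over the ring generated by the derivatives of `G` -/
theorem pf_REA2 (hHIV : T_HIV2) (hDAT : T_DAT2) : T_REA2 := by
  intro k F _ _ _ _ _ u dd δ j0 c0 J m G hB sg S hS hsg β
  obtain ⟨-, hu, -, -, -, -, -, -, -, -⟩ := hDAT k F u dd δ j0 c0 J m G hB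
  rw [Itg, Pool.Agent.H62.HIL.pf_VRC]
  intro V hV
  have hcon : ∀ c : k, algebraMap k F c ∈ V := by
    intro c
    have h := hV (C c)
    simpa [algebraMap_eq] using h
  have hGam : ∀ l, aeval u J * dd l G ∈ V := by
    intro l
    have h := hV (X l)
    simpa using h
  obtain ⟨i, -, hi⟩ := Finset.exists_max_image Finset.univ (fun i => V.valuation (u i))
    ⟨(0 : Fin 3), Finset.mem_univ _⟩
  have hdiv : ∀ j, u j / u i ∈ V := by
    intro j
    rw [← ValuationSubring.valuation_le_one_iff, map_div₀]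
    refine div_le_one_of_le₀ (hi j (Finset.mem_univ _)) zero_le
  obtain ⟨c, hc⟩ := hS.cert
  obtain ⟨e, he, hsum⟩ := hc i
  have hq : ∀ l, e l / u i ^ ((c : ℤ) + 1 + sg - m) ∈ V := fun l =>
    hHIV k F u dd δ j0 c0 J m G hB V hcon i hdiv _ _ (he l).1 (he l).2
  have h1 : aeval u J * aeval u S * u i ^ (m - 1 - sg) ∈ V := by
    have hpow : u i ^ (m - 1 - sg) = u i ^ c / u i ^ ((c : ℤ) + 1 + sg - m) := by
      rw [← zpow_natCast (u i) c, ← zpow_sub₀ (hu i), ← zpow_natCast (u i) (m - 1 - sg)]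
      congr 1
      push_cast [Nat.cast_sub (show sg ≤ m - 1 by omega), Nat.cast_sub (show 1 ≤ m by omega)]
      ring
    have hs : aeval u J * aeval u S * u i ^ (m - 1 - sg) =
        ∑ l, (e l / u i ^ ((c : ℤ) + 1 + sg - m)) * (aeval u J * dd l G) := by
      have h3 : aeval u J * aeval u S * u i ^ (m - 1 - sg) =
          aeval u J * ((aeval u S * u i ^ c) / u i ^ ((c : ℤ) + 1 + sg - m)) := by
        rw [hpow]
        ring
      rw [h3, hsum, Finset.sum_div, Finset.mul_sum]
      refine Finset.sum_congr rfl fun l _ => ?_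
      ring
    rw [hs]
    exact sum_mem fun l _ => mul_mem (hq l) (hGam l)
  have h2 : aeval u J * aeval u S * ∏ i', u (β i') =
      (aeval u J * aeval u S * u i ^ (m - 1 - sg)) * ∏ i', (u (β i') / u i) := by
    rw [Finset.prod_div_distrib, Finset.prod_const, Finset.card_univ, Fintype.card_fin,
      mul_assoc, mul_assoc, mul_assoc, mul_div_cancel₀ _ (pow_ne_zero _ (hu i))]
  rw [h2]
  exact mul_mem h1 (prod_mem fun i' _ => hdiv (β i'))

end Pool.Agent.H49.SFV
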